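import Pool.Agent.Helper23.GK.StG

/-!
# Project GK, module FN2 (all `y` simultaneously)
-/

set_option autoImplicit false

namespace Pool.Agent.Helper87.GK

open Finset ArithmeticFunction
open Pool.Agent.Helper23.GK
open Pool.Agent.Helper48.BK (ex th Sx Apx)

private theorem th_nn (n : ℕ) : 0 ≤ th n := by
  unfold th
  split_ifs
  · exact Real.log_natCast_nonneg n
  · exact le_rfl

/-- the sum of FN1 -/
private noncomputable def RR (N H : ℕ) : ℝ :=
  ∑ n ∈ (Ioc 0 H).filter (fun n => n < N), th n * th (N - n)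

private theorem RR_mono (N : ℕ) {H H' : ℕ} (h : H ≤ H') : RR N H ≤ RR N H' := by
  unfold RR
  refine Finset.sum_le_sum_of_subset_of_nonneg ?_ fun n _ _ => mul_nonneg (th_nn _) (th_nn _)
  exact Finset.filter_subset_filter _ (Finset.Ioc_subset_Ioc le_rfl h)

private theorem RN_eq (N : ℕ) (y : ℝ) : RN N y = RR N ⌊y⌋₊ := by
  unfold RN RR
  rw [Finset.sum_filter, Finset.sum_filter]
  have e : Icc 1 ⌊y⌋₊ = Ioc 0 ⌊y⌋₊ := by
    ext n
    simp only [mem_Icc, mem_Ioc]
    omega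
  rw [e]
  refine Finset.sum_congr rfl fun n _ => ?_
  unfold th
  by_cases h1 : n < N
  · by_cases h2 : n.Prime
    · by_cases h3 : (N - n).Prime
      · rw [if_pos ⟨h2, h1, h3⟩, if_pos h1, if_pos h2, if_pos h3]
      · rw [if_neg fun h => h3 h.2.2, if_pos h1, if_neg h3, mul_zero]
    · rw [if_neg fun h => h2 h.1, if_pos h1, if_neg h2, zero_mul]
  · rw [if_neg fun h => h1 h.2.1, if_neg h1]

/-- the pointwise step -/
private theorem step {N : ℕ} {s y Z : ℝ} {J i : ℕ} {e S : ℝ} (hs : 0 < s) (hJ : 1 ≤ J)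
    (hy : 0 ≤ y) (hi : i = ⌊y * J / s⌋₊) (hS : 0 ≤ S) (hZ : Z = s / J)
    (h1 : |RR N ⌊(i : ℝ) * s / J⌋₊ - S * ⌊(i : ℝ) * s / J⌋₊| ≤ e)
    (h2 : |RR N ⌊((i + 1 : ℕ) : ℝ) * s / J⌋₊ - S * ⌊((i + 1 : ℕ) : ℝ) * s / J⌋₊| ≤ e) :
    |RN N y - S * y| ≤ e + S * (Z + 1) := by
  have hJ0 : (0 : ℝ) < J := by exact_mod_cast hJ
  have hv : 0 ≤ y * J / s := by positivity
  have hlo : (i : ℝ) ≤ y * J / s := by rw [hi]; exact Nat.floor_le hv
  have hhi : y * J / s < (i : ℝ) + 1 := by rw [hi]; exact Nat.lt_floor_add_one _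
  have hlo' : (i : ℝ) * s / J ≤ y := by
    rw [div_le_iff₀ hJ0]
    rw [le_div_iff₀ hs] at hlo
    exact hlo
  have hhi' : y ≤ ((i + 1 : ℕ) : ℝ) * s / J := by
    rw [le_div_iff₀ hJ0]
    rw [div_lt_iff₀ hs] at hhi
    push_cast
    exact hhi.le
  have hstep : ((i + 1 : ℕ) : ℝ) * s / J = (i : ℝ) * s / J + Z := by
    rw [hZ]; push_cast; ring
  have hi0 : 0 ≤ (i : ℝ) * s / J := by positivity
  set a : ℝ := (i : ℝ) * s / J with ha
  set b : ℝ := ((i + 1 : ℕ) : ℝ) * s / J with hb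
  have hb0 : 0 ≤ b := hi0.trans (hlo'.trans hhi')
  have m1 : RR N ⌊a⌋₊ ≤ RR N ⌊y⌋₊ := RR_mono N (Nat.floor_le_floor hlo')
  have m2 : RR N ⌊y⌋₊ ≤ RR N ⌊b⌋₊ := RR_mono N (Nat.floor_le_floor hhi')
  have f1 : a < (⌊a⌋₊ : ℝ) + 1 := Nat.lt_floor_add_one a
  have f2 : (⌊b⌋₊ : ℝ) ≤ b := Nat.floor_le hb0
  rw [abs_le] at h1 h2
  rw [RN_eq, abs_le]
  have g1 : S * (y - ⌊a⌋₊) ≤ S * (Z + 1) := mul_le_mul_of_nonneg_left (by linarith) hS
  have g2 : S * ((⌊b⌋₊ : ℝ) - y) ≤ S * (Z + 1) := mul_le_mul_of_nonneg_left (by linarith) hS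
  constructor
  · nlinarith
  · nlinarith

theorem hFN2 (hF : StFn1) (hSs : StSsa) : StFn2 := by
  intro A K
  obtain ⟨X1, hX1⟩ := hF (2 * A + 4) (2 * K + 1)
  have hlog : Filter.Tendsto (fun X : ℕ => Real.log X) Filter.atTop Filter.atTop :=
    Real.tendsto_log_atTop.comp tendsto_natCast_atTop_atTop
  have hev1 : ∀ᶠ X : ℕ in Filter.atTop, (4 * K + 2 : ℝ) + 21 * 2 ^ A ≤ Real.log X :=
    hlog.eventually_ge_atTop _
  have hev2 : ∀ᶠ X : ℕ in Filter.atTop, Real.log X ^ (A + 3) ≤ √X := by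
    have h0 := isLittleO_log_rpow_rpow_atTop ((A + 3 : ℕ) : ℝ) (show (0 : ℝ) < 1 / 2 by norm_num)
    have h1 := (h0.bound (show (0 : ℝ) < 1 by norm_num))
    have h2 := tendsto_natCast_atTop_atTop (R := ℝ) |>.eventually h1
    filter_upwards [h2, Filter.eventually_ge_atTop 1] with X hX h3
    have h4 : 0 ≤ Real.log (X : ℝ) := Real.log_natCast_nonneg X
    rw [Real.rpow_natCast, Real.norm_of_nonneg (by positivity),
      Real.norm_of_nonneg (by positivity), one_mul, ← Real.sqrt_eq_rpow] at hX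
    exact hX
  obtain ⟨X2, hX2⟩ := Filter.eventually_atTop.1 (hev1.and hev2)
  refine ⟨max (max X1 X2) 2, fun X hX => ?_⟩
  have hXX1 : X1 ≤ X := (le_max_left _ _).trans ((le_max_left _ _).trans hX)
  have hXX2 : X2 ≤ X := (le_max_right _ _).trans ((le_max_left _ _).trans hX)
  have hX2' : 2 ≤ X := (le_max_right _ _).trans hX
  obtain ⟨hL, hLs⟩ := hX2 X hXX2
  set L : ℝ := Real.log X with hLd
  set s : ℝ := √X with hsd
  have hXp : (0 : ℝ) < X := by positivity
  have hs : 0 < s := Real.sqrt_pos.2 hXp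
  have hK0 : (0 : ℝ) ≤ K := Nat.cast_nonneg K
  have hA1 : (1 : ℝ) ≤ 2 ^ A := one_le_pow₀ (by norm_num)
  have hL1 : (1 : ℝ) ≤ L := by linarith
  have hL0 : (0 : ℝ) < L := by linarith
  have hLA1 : (1 : ℝ) ≤ L ^ (A + 3) := one_le_pow₀ hL1
  set J : ℕ := ⌈L ^ (A + 3)⌉₊ with hJd
  have hJ1 : 1 ≤ J := Nat.one_le_iff_ne_zero.2 fun h0 => by
    have : L ^ (A + 3) ≤ (J : ℝ) := Nat.le_ceil _
    rw [h0] at this
    norm_num at this
    linarith
  have hJ0 : (0 : ℝ) < J := by exact_mod_cast hJ1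
  have hJlo : L ^ (A + 3) ≤ (J : ℝ) := Nat.le_ceil _
  have hJhi : (J : ℝ) ≤ 2 * L ^ (A + 3) := by
    have := Nat.ceil_lt_add_one (show 0 ≤ L ^ (A + 3) by positivity)
    rw [← hJd] at this
    linarith
  -- the bad sets
  set H : ℕ → ℕ := fun i => ⌊(i : ℝ) * s / J⌋₊ with hHd
  set Bad : ℕ → Finset ℕ := fun i => (Ioc X (2 * X)).filter (fun N => Even N ∧
    √X / Real.log X ^ (2 * A + 4) < |∑ n ∈ (Ioc 0 (H i)).filter (fun n => n < N),
      th n * th (N - n) - SS N * (H i)|) with hBad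
  have hBadc : ∀ i ∈ range (2 * K * J + 2), ((Bad i).card : ℝ) ≤ X / L ^ (2 * A + 4) := by
    intro i hi
    refine hX1 X hXX1 (H i) ?_
    rw [mem_range] at hi
    have h1 : (i : ℝ) ≤ 2 * K * J + 1 := by
      have : i ≤ 2 * K * J + 1 := by omega
      exact_mod_cast this
    have h2 : ((H i : ℕ) : ℝ) ≤ (i : ℝ) * s / J := Nat.floor_le (by positivity)
    refine h2.trans ?_
    rw [div_le_iff₀ hJ0]
    push_cast
    have hJr : (1 : ℝ) ≤ J := by exact_mod_cast hJ1
    calc (i : ℝ) * s ≤ (2 * K * J + 1) * s := mul_le_mul_of_nonneg_right h1 hs.le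
      _ ≤ ((2 * K + 1) * J) * s := mul_le_mul_of_nonneg_right (by nlinarith) hs.le
      _ = (2 * K + 1) * s * J := by ring
  have hsub : Exc A K (Ioc X (2 * X)) ⊆ (range (2 * K * J + 2)).biUnion Bad := by
    intro N hN
    by_contra hcon
    simp only [Exc, Finset.mem_filter] at hN
    obtain ⟨hNI, hNe, y, hy0, hyK, hyN⟩ := hN
    have hNI' := mem_Ioc.1 hNI
    have hgood : ∀ i ∈ range (2 * K * J + 2), |RR N (H i) - SS N * (H i)| ≤
        s / L ^ (2 * A + 4) := by
      intro i hi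
      by_contra hlt
      refine hcon (mem_biUnion.2 ⟨i, hi, ?_⟩)
      simp only [hBad]
      rw [mem_filter]
      exact ⟨hNI, hNe, not_le.1 hlt⟩
    have hNr : (N : ℝ) ≤ 2 * X := by exact_mod_cast hNI'.2
    have hNx : (X : ℝ) < N := by exact_mod_cast hNI'.1
    have hsN : s ≤ √N := Real.sqrt_le_sqrt hNx.le
    have hsN2 : √N ≤ 2 * s := by
      rw [hsd, show (2 : ℝ) * √X = √(2 ^ 2 * X) by
        rw [Real.sqrt_mul (by positivity), Real.sqrt_sq (by norm_num)]]
      exact Real.sqrt_le_sqrt (by linarith)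
    have hlogN : Real.log N ≤ 2 * L := by
      have h1 : (N : ℝ) ≤ (X : ℝ) ^ 2 := by
        have : (2 : ℝ) ≤ X := by exact_mod_cast hX2'
        nlinarith
      have h2 := Real.log_le_log (hXp.trans hNx) h1
      rw [Real.log_pow] at h2
      push_cast at h2
      exact h2
    have hlogN0 : 0 < Real.log N := by
      have : L ≤ Real.log N := Real.log_le_log hXp hNx.le
      linarith
    obtain ⟨hSS1, hSS2⟩ := hSs N (by omega)
    have hSS3 : SS N ≤ 10 * L := by linarith
    set i : ℕ := ⌊y * J / s⌋₊ with hid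
    have hiK : i ≤ 2 * K * J := by
      have h1 : y * J / s ≤ ((2 * K * J : ℕ) : ℝ) := by
        rw [div_le_iff₀ hs]
        push_cast
        have : y ≤ 2 * K * s := by
          calc y ≤ K * √N := hyK
            _ ≤ K * (2 * s) := mul_le_mul_of_nonneg_left hsN2 hK0
            _ = 2 * K * s := by ring
        calc y * J ≤ (2 * K * s) * J := mul_le_mul_of_nonneg_right this hJ0.le
          _ = 2 * K * J * s := by ring
      have h2 := Nat.floor_le_floor h1
      rw [Nat.floor_natCast] at h2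
      exact h2
    have hstep := step (N := N) (s := s) (y := y) (Z := s / J) (J := J) (i := i)
      (e := s / L ^ (2 * A + 4)) (S := SS N) hs hJ1 hy0 hid (by linarith) rfl
      (hgood i (mem_range.2 (by omega))) (hgood (i + 1) (mem_range.2 (by omega)))
    have hZ : s / J ≤ s / L ^ (A + 3) := div_le_div_of_nonneg_left hs.le (by positivity) hJlo
    have h1 : (1 : ℝ) ≤ s / L ^ (A + 3) := by
      rw [le_div_iff₀ (by positivity), one_mul]
      exact hLs
    have h2 : s / L ^ (2 * A + 4) ≤ s / L ^ (A + 3) :=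
      div_le_div_of_nonneg_left hs.le (by positivity) (pow_le_pow_right₀ hL1 (by omega))
    have hfin : |RN N y - SS N * y| ≤ √N / Real.log N ^ A := by
      calc |RN N y - SS N * y| ≤ s / L ^ (2 * A + 4) + SS N * (s / J + 1) := hstep
        _ ≤ s / L ^ (A + 3) + (10 * L) * (s / L ^ (A + 3) + s / L ^ (A + 3)) := by
            refine add_le_add h2 (mul_le_mul hSS3 (add_le_add hZ h1) (by positivity)
              (by positivity))
        _ ≤ 21 * L * (s / L ^ (A + 3)) := by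
            have h3 : 0 ≤ s / L ^ (A + 3) := by positivity
            nlinarith
        _ = 21 * s / (L ^ A * L ^ 2) := by
            field_simp
            ring
        _ ≤ s / (2 ^ A * L ^ A) := by
            rw [div_le_div_iff₀ (by positivity) (by positivity)]
            have h4 : 21 * (2 : ℝ) ^ A ≤ L ^ 2 := by nlinarith
            have h5 : 0 ≤ s * L ^ A := by positivity
            calc 21 * s * (2 ^ A * L ^ A) = (21 * 2 ^ A) * (s * L ^ A) := by ring
              _ ≤ L ^ 2 * (s * L ^ A) := mul_le_mul_of_nonneg_right h4 h5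
              _ = s * (L ^ A * L ^ 2) := by ring
        _ = s / (2 * L) ^ A := by rw [mul_pow]
        _ ≤ √N / Real.log N ^ A := by
            refine div_le_div₀ (Real.sqrt_nonneg _) hsN (by positivity) ?_
            exact pow_le_pow_left₀ hlogN0.le hlogN A
    exact absurd hyN (not_lt.2 hfin)
  calc ((Exc A K (Ioc X (2 * X))).card : ℝ)
      ≤ (((range (2 * K * J + 2)).biUnion Bad).card : ℝ) := by
        exact_mod_cast Finset.card_le_card hsub
    _ ≤ ((∑ i ∈ range (2 * K * J + 2), (Bad i).card : ℕ) : ℝ) := by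
        exact_mod_cast Finset.card_biUnion_le
    _ = ∑ i ∈ range (2 * K * J + 2), ((Bad i).card : ℝ) := by push_cast; rfl
    _ ≤ ∑ _i ∈ range (2 * K * J + 2), X / L ^ (2 * A + 4) := Finset.sum_le_sum hBadc
    _ = (2 * K * J + 2) * (X / L ^ (2 * A + 4)) := by
        rw [Finset.sum_const, Finset.card_range, nsmul_eq_mul]
        push_cast
        rfl
    _ ≤ ((4 * K + 2) * L ^ (A + 3)) * (X / L ^ (2 * A + 4)) := by
        refine mul_le_mul_of_nonneg_right ?_ (by positivity)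
        nlinarith
    _ ≤ (L * L ^ (A + 3)) * (X / L ^ (2 * A + 4)) := by
        refine mul_le_mul_of_nonneg_right ?_ (by positivity)
        refine mul_le_mul_of_nonneg_right ?_ (by positivity)
        linarith
    _ = X / L ^ A := by
        rw [show 2 * A + 4 = A + (A + 4) by ring, pow_add L A (A + 4)]
        field_simp
        ring

end Pool.Agent.Helper87.GK
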