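import Pool.Agent.Helper23.GK.StF

/-!
# Project GK, module HB (Heath-Brown's identity with two factors, in dyadic blocks)
-/

set_option autoImplicit false

namespace Pool.Agent.Helper87.GK

open Finset ArithmeticFunction
open Pool.Agent.Helper23.GK

private theorem blk_sum (u : ℕ) (F : ℕ → ℂ) :
    ∑ a ∈ Icc 1 (2 ^ u), F a = ∑ e ∈ range (u + 1), ∑ a ∈ blk2 e, F a := by
  induction u with
  | zero => simp [blk2]
  | succ u ih =>
    rw [Finset.sum_range_succ, ← ih]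
    have h1 : Icc 1 (2 ^ (u + 1)) = Icc 1 (2 ^ u) ∪ Ioc (2 ^ u) (2 ^ (u + 1)) := by
      ext a
      have : 1 ≤ 2 ^ u := Nat.one_le_two_pow
      have : 2 ^ u ≤ 2 ^ (u + 1) := Nat.pow_le_pow_right (by norm_num) (by omega)
      simp only [mem_Icc, mem_union, mem_Ioc]
      omega
    have h2 : Disjoint (Icc 1 (2 ^ u)) (Ioc (2 ^ u) (2 ^ (u + 1))) := by
      rw [Finset.disjoint_left]
      intro a ha hb
      simp only [mem_Icc, mem_Ioc] at ha hb
      omega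
    rw [h1, Finset.sum_union h2]
    simp [blk2]

private theorem conv_sum (f k : ArithmeticFunction ℝ) (N : ℕ) (h : ℕ → ℂ)
    (hh : ∀ n, N < n → h n = 0) :
    ∑ n ∈ Icc 1 N, (((f * k) n : ℝ) : ℂ) * h n =
      ∑ a ∈ Icc 1 N, ((f a : ℝ) : ℂ) * ∑ b ∈ Icc 1 N, ((k b : ℝ) : ℂ) * h (a * b) := by
  have h1 : ∀ n ∈ Icc 1 N, (((f * k) n : ℝ) : ℂ) * h n =
      ∑ p ∈ ((Icc 1 N ×ˢ Icc 1 N).filter (fun p => p.1 * p.2 ≤ N)).filter
        (fun p => p.1 * p.2 = n), ((f p.1 : ℝ) : ℂ) * (((k p.2 : ℝ) : ℂ) * h (p.1 * p.2)) := by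
    intro n hn
    rw [mem_Icc] at hn
    have e : ((Icc 1 N ×ˢ Icc 1 N).filter (fun p => p.1 * p.2 ≤ N)).filter
        (fun p => p.1 * p.2 = n) = n.divisorsAntidiagonal := by
      ext p
      simp only [mem_filter, mem_product, mem_Icc, Nat.mem_divisorsAntidiagonal]
      constructor
      · rintro ⟨-, h2⟩
        exact ⟨h2, by omega⟩
      · rintro ⟨h2, h3⟩
        have hp1 : 1 ≤ p.1 := Nat.one_le_iff_ne_zero.2 fun h0 => by
          rw [h0, zero_mul] at h2; omega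
        have hp2 : 1 ≤ p.2 := Nat.one_le_iff_ne_zero.2 fun h0 => by
          rw [h0, mul_zero] at h2; omega
        have h4 : p.1 ≤ p.1 * p.2 := Nat.le_mul_of_pos_right _ hp2
        have h5 : p.2 ≤ p.1 * p.2 := Nat.le_mul_of_pos_left _ hp1
        exact ⟨⟨⟨⟨hp1, by omega⟩, ⟨hp2, by omega⟩⟩, by omega⟩, h2⟩
    rw [e, ArithmeticFunction.mul_apply, Complex.ofReal_sum, Finset.sum_mul]
    refine Finset.sum_congr rfl fun p hp => ?_
    rw [(Nat.mem_divisorsAntidiagonal.1 hp).1]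
    push_cast
    ring
  rw [Finset.sum_congr rfl h1]
  rw [Finset.sum_fiberwise_of_maps_to (s := (Icc 1 N ×ˢ Icc 1 N).filter (fun p => p.1 * p.2 ≤ N))
    (t := Icc 1 N) (g := fun p => p.1 * p.2)
    (f := fun p => ((f p.1 : ℝ) : ℂ) * (((k p.2 : ℝ) : ℂ) * h (p.1 * p.2)))]
  · rw [Finset.sum_filter]
    rw [Finset.sum_product]
    refine Finset.sum_congr rfl fun a _ => ?_
    rw [Finset.mul_sum]
    refine Finset.sum_congr rfl fun b _ => ?_
    simp only
    split_ifs with hab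
    · rfl
    · rw [hh (a * b) (not_le.1 hab)]
      simp
  · intro p hp
    simp only [mem_filter, mem_product, mem_Icc] at hp ⊢
    exact ⟨Nat.mul_pos hp.1.1.1 hp.1.2.1, hp.2⟩

private noncomputable def MM (u : ℕ) : ArithmeticFunction ℝ :=
  ⟨fun n => if n ≤ 2 ^ u then ((moebius n : ℤ) : ℝ) else 0, by simp⟩

private theorem MM_apply (u n : ℕ) :
    MM u n = if n ≤ 2 ^ u then ((moebius n : ℤ) : ℝ) else 0 := rfl

private noncomputable def mu' : ArithmeticFunction ℝ := ((moebius : ArithmeticFunction ℤ) : ArithmeticFunction ℝ)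

private noncomputable def ze : ArithmeticFunction ℝ := ((zeta : ArithmeticFunction ℕ) : ArithmeticFunction ℝ)

private theorem R_zero (u : ℕ) {n : ℕ} (hn : n ≤ 2 ^ u) : (mu' - MM u) n = 0 := by
  have h1 : (mu' - MM u) n = mu' n - MM u n := rfl
  rw [h1, MM_apply, if_pos hn]
  simp [mu']

private theorem key (u n : ℕ) (_h1 : 1 ≤ n) (h2 : n ≤ 4 ^ u) :
    Λ n = ((MM u * log) n + (MM u * log) n) - (MM u * (MM u * (log * ze))) n := by
  have hz : (mu' * ze : ArithmeticFunction ℝ) = 1 := coe_moebius_mul_coe_zeta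
  have hl : (mu' * log : ArithmeticFunction ℝ) = Λ := moebius_mul_log_eq_vonMangoldt
  have halg : (mu' - MM u) * ((mu' - MM u) * (log * ze)) =
      Λ - (MM u * log + MM u * log) + MM u * (MM u * (log * ze)) := by
    linear_combination (mu' * log - 2 * (MM u * log)) * hz + hl
  have h0 : ((mu' - MM u) * ((mu' - MM u) * (log * ze))) n = 0 := by
    rw [ArithmeticFunction.mul_apply]
    refine Finset.sum_eq_zero fun p hp => ?_
    rw [Nat.mem_divisorsAntidiagonal] at hp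
    rcases le_or_gt p.1 (2 ^ u) with ha | ha
    · rw [R_zero u ha, zero_mul]
    · rw [ArithmeticFunction.mul_apply]
      rw [Finset.sum_eq_zero, mul_zero]
      intro r hr
      rw [Nat.mem_divisorsAntidiagonal] at hr
      rcases le_or_gt r.1 (2 ^ u) with hc | hc
      · rw [R_zero u hc, zero_mul]
      · exfalso
        have hd : 1 ≤ r.2 := Nat.one_le_iff_ne_zero.2 fun h0 => by
          rw [h0, mul_zero] at hr; exact hr.2 hr.1.symm
        have h3 : r.1 ≤ p.2 := by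
          rw [← hr.1]; exact Nat.le_mul_of_pos_right _ hd
        have h4 : 2 ^ u * 2 ^ u < p.1 * p.2 :=
          Nat.mul_lt_mul'' ha (lt_of_lt_of_le hc h3)
        have h5 : 4 ^ u = 2 ^ u * 2 ^ u := by
          rw [← mul_pow]
          norm_num
        rw [hp.1] at h4
        omega
  have h3 : ((mu' - MM u) * ((mu' - MM u) * (log * ze))) n =
      (Λ - (MM u * log + MM u * log) + MM u * (MM u * (log * ze)) : ArithmeticFunction ℝ) n :=
    congrArg (fun F : ArithmeticFunction ℝ => F n) halg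
  rw [h0] at h3
  have h4 : (Λ - (MM u * log + MM u * log) + MM u * (MM u * (log * ze)) :
      ArithmeticFunction ℝ) n = Λ n - ((MM u * log) n + (MM u * log) n) +
        (MM u * (MM u * (log * ze))) n := rfl
  rw [h4] at h3
  linarith

private theorem MM_sum (u : ℕ) (F : ℕ → ℂ) :
    ∑ a ∈ Icc 1 (4 ^ u), ((MM u a : ℝ) : ℂ) * F a =
      ∑ e ∈ range (u + 1), ∑ a ∈ blk2 e, ((moebius a : ℤ) : ℂ) * F a := by
  rw [← blk_sum u (fun a => ((moebius a : ℤ) : ℂ) * F a)]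
  have hsub : Icc 1 (2 ^ u) ⊆ Icc 1 (4 ^ u) :=
    Finset.Icc_subset_Icc le_rfl (Nat.pow_le_pow_left (by norm_num) u)
  rw [← Finset.sum_subset hsub]
  · refine Finset.sum_congr rfl fun a ha => ?_
    rw [mem_Icc] at ha
    rw [MM_apply, if_pos ha.2]
    push_cast
    rfl
  · intro a ha hb
    simp only [mem_Icc] at ha hb
    rw [MM_apply, if_neg (by omega)]
    simp

private theorem blk_sum' (u : ℕ) (F : ℕ → ℂ) :
    ∑ a ∈ Icc 1 (4 ^ u), F a = ∑ e ∈ range (2 * u + 1), ∑ a ∈ blk2 e, F a := by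
  rw [← blk_sum (2 * u) F, pow_mul]
  norm_num

private theorem log_sum (u : ℕ) (F : ℕ → ℂ) :
    ∑ a ∈ Icc 1 (4 ^ u), ((log a : ℝ) : ℂ) * F a =
      ∑ e ∈ range (2 * u + 1), ∑ a ∈ blk2 e, ((Real.log a : ℝ) : ℂ) * F a := by
  rw [← blk_sum' u (fun a => ((Real.log a : ℝ) : ℂ) * F a)]
  rfl

private theorem ze_sum (u : ℕ) (F : ℕ → ℂ) :
    ∑ a ∈ Icc 1 (4 ^ u), ((ze a : ℝ) : ℂ) * F a =
      ∑ e ∈ range (2 * u + 1), ∑ a ∈ blk2 e, F a := by
  rw [← blk_sum' u F]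
  refine Finset.sum_congr rfl fun a ha => ?_
  rw [mem_Icc] at ha
  have : ze a = 1 := by
    have h0 : a ≠ 0 := by omega
    simp [ze, natCoe_apply, zeta_apply, h0]
  rw [this]
  simp

/-- the quadruple sum over blocks with given exponents -/
private noncomputable def T4 (g : ℕ → ℂ) (e0 e1 e2 e3 : ℕ) : ℂ :=
  ∑ m1 ∈ blk2 e0, ∑ m2 ∈ blk2 e1, ∑ l1 ∈ blk2 e2, ∑ l2 ∈ blk2 e3,
    ((moebius m1 : ℤ) : ℂ) * ((moebius m2 : ℤ) : ℂ) * ((Real.log l1 : ℝ) : ℂ) *
      g (m1 * m2 * l1 * l2)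

private theorem EU_sum (u : ℕ) (F : ℕ → ℕ → ℕ → ℕ → ℂ) :
    ∑ e ∈ EU u, F (e 0) (e 1) (e 2) (e 3) =
      ∑ e0 ∈ range (u + 1), ∑ e1 ∈ range (u + 1), ∑ e2 ∈ range (2 * u + 1),
        ∑ e3 ∈ range (2 * u + 1), F e0 e1 e2 e3 := by
  simp only [← Finset.sum_product' (s := range (2 * u + 1)) (t := range (2 * u + 1))]
  rw [← Finset.sum_product' (s := range (u + 1)) (t := range (u + 1))
    (f := fun e0 e1 => ∑ p ∈ range (2 * u + 1) ×ˢ range (2 * u + 1), F e0 e1 p.1 p.2)]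
  rw [← Finset.sum_product' (s := range (u + 1) ×ˢ range (u + 1))
    (t := range (2 * u + 1) ×ˢ range (2 * u + 1)) (f := fun p r => F p.1 p.2 r.1 r.2)]
  refine Finset.sum_nbij' (fun e => ((e 0, e 1), (e 2, e 3)))
    (fun p => ![p.1.1, p.1.2, p.2.1, p.2.2]) ?_ ?_ ?_ ?_ ?_
  · intro e he
    simp only [EU, mem_filter, Fintype.mem_piFinset, mem_range] at he
    simp only [mem_product, mem_range]
    obtain ⟨h1, h2, h3⟩ := he
    exact ⟨⟨by omega, by omega⟩, h1 2, h1 3⟩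
  · rintro ⟨⟨a, b⟩, ⟨c, d⟩⟩ hp
    simp only [mem_product, mem_range] at hp
    simp only [EU, mem_filter, Fintype.mem_piFinset, mem_range]
    obtain ⟨⟨h1, h2⟩, h3, h4⟩ := hp
    refine ⟨fun i => ?_, ?_, ?_⟩
    · fin_cases i
      · show a < _; omega
      · show b < _; omega
      · exact h3
      · exact h4
    · show a ≤ u; omega
    · show b ≤ u; omega
  · intro e _
    funext i
    fin_cases i <;> rfl
  · rintro ⟨⟨a, b⟩, ⟨c, d⟩⟩ _
    rfl
  · intro e _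
    rfl

theorem hHB : StHb := by
  intro u g hg
  have hS : ∑ n ∈ Icc 1 (4 ^ u), ((Λ n : ℝ) : ℂ) * g n =
      2 * ∑ n ∈ Icc 1 (4 ^ u), (((MM u * log) n : ℝ) : ℂ) * g n -
        ∑ n ∈ Icc 1 (4 ^ u), (((MM u * (MM u * (log * ze))) n : ℝ) : ℂ) * g n := by
    rw [Finset.mul_sum, ← Finset.sum_sub_distrib]
    refine Finset.sum_congr rfl fun n hn => ?_
    rw [mem_Icc] at hn
    rw [key u n hn.1 hn.2]
    push_cast
    ring
  -- vanishing of the shifted functions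
  have hv : ∀ a, 1 ≤ a → ∀ n, 4 ^ u < n → g (a * n) = 0 := fun a ha n hn =>
    hg _ (lt_of_lt_of_le hn (Nat.le_mul_of_pos_left _ ha))
  have h1 : ∑ n ∈ Icc 1 (4 ^ u), (((MM u * log) n : ℝ) : ℂ) * g n =
      ∑ e0 ∈ range (u + 1), ∑ e2 ∈ range (2 * u + 1), T4 g e0 0 e2 0 := by
    rw [conv_sum _ _ _ _ hg, MM_sum]
    refine Finset.sum_congr rfl fun e0 _ => ?_
    rw [Finset.sum_congr rfl fun a _ => by rw [log_sum, Finset.mul_sum], Finset.sum_comm]
    refine Finset.sum_congr rfl fun e2 _ => ?_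
    unfold T4
    refine Finset.sum_congr rfl fun m1 _ => ?_
    simp [blk2, Finset.mul_sum, mul_assoc]
  have h2 : ∑ n ∈ Icc 1 (4 ^ u), (((MM u * (MM u * (log * ze))) n : ℝ) : ℂ) * g n =
      ∑ e0 ∈ range (u + 1), ∑ e1 ∈ range (u + 1), ∑ e2 ∈ range (2 * u + 1),
        ∑ e3 ∈ range (2 * u + 1), T4 g e0 e1 e2 e3 := by
    rw [conv_sum _ _ _ _ hg]
    have e1 : ∀ a ∈ Icc 1 (4 ^ u), ((MM u a : ℝ) : ℂ) * ∑ b ∈ Icc 1 (4 ^ u),
        (((MM u * (log * ze)) b : ℝ) : ℂ) * g (a * b) = ((MM u a : ℝ) : ℂ) *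
        ∑ e1 ∈ range (u + 1), ∑ b ∈ blk2 e1, ((moebius b : ℤ) : ℂ) *
          ∑ e2 ∈ range (2 * u + 1), ∑ c ∈ blk2 e2, ((Real.log c : ℝ) : ℂ) *
            ∑ e3 ∈ range (2 * u + 1), ∑ d ∈ blk2 e3, g (a * (b * (c * d))) := by
      intro a ha
      rw [mem_Icc] at ha
      congr 1
      rw [conv_sum _ _ _ (fun n => g (a * n)) (hv a ha.1)]
      rw [← MM_sum]
      refine Finset.sum_congr rfl fun b hb => ?_
      rw [mem_Icc] at hb
      congr 1
      rw [conv_sum _ _ _ (fun n => g (a * (b * n))) (fun n hn => by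
        rw [← mul_assoc]; exact hv (a * b) (Nat.mul_pos ha.1 hb.1) n hn)]
      rw [log_sum]
      refine Finset.sum_congr rfl fun e2 _ => Finset.sum_congr rfl fun c _ => ?_
      rw [ze_sum]
    rw [Finset.sum_congr rfl e1, MM_sum]
    refine Finset.sum_congr rfl fun e0 _ => ?_
    simp only [Finset.mul_sum]
    rw [Finset.sum_comm]
    refine Finset.sum_congr rfl fun e1 _ => ?_
    -- move the sums over exponents outside
    have s1 : ∀ a ∈ blk2 e0, ∑ b ∈ blk2 e1, ∑ e2 ∈ range (2 * u + 1), ∑ c ∈ blk2 e2,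
        ∑ e3 ∈ range (2 * u + 1), ∑ d ∈ blk2 e3, ((moebius a : ℤ) : ℂ) *
          (((moebius b : ℤ) : ℂ) * (((Real.log c : ℝ) : ℂ) * g (a * (b * (c * d))))) =
        ∑ e2 ∈ range (2 * u + 1), ∑ e3 ∈ range (2 * u + 1), ∑ b ∈ blk2 e1, ∑ c ∈ blk2 e2,
          ∑ d ∈ blk2 e3, ((moebius a : ℤ) : ℂ) *
          (((moebius b : ℤ) : ℂ) * (((Real.log c : ℝ) : ℂ) * g (a * (b * (c * d))))) := by
      intro a _
      rw [Finset.sum_comm]
      refine Finset.sum_congr rfl fun e2 _ => ?_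
      rw [Finset.sum_congr rfl fun b _ => Finset.sum_comm]
      rw [Finset.sum_comm]
    rw [Finset.sum_congr rfl s1, Finset.sum_comm]
    refine Finset.sum_congr rfl fun e2 _ => ?_
    rw [Finset.sum_comm]
    refine Finset.sum_congr rfl fun e3 _ => ?_
    unfold T4
    refine Finset.sum_congr rfl fun a _ => Finset.sum_congr rfl fun b _ =>
      Finset.sum_congr rfl fun c _ => Finset.sum_congr rfl fun d _ => ?_
    simp only [mul_assoc]
  rw [hS, h1, h2]
  have h3 : ∑ e ∈ EU u, (if e 1 = 0 ∧ e 3 = 0 then (1 : ℂ) else -1) * Te g e =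
      ∑ e0 ∈ range (u + 1), ∑ e1 ∈ range (u + 1), ∑ e2 ∈ range (2 * u + 1),
        ∑ e3 ∈ range (2 * u + 1), (if e1 = 0 ∧ e3 = 0 then (1 : ℂ) else -1) *
          T4 g e0 e1 e2 e3 := by
    rw [← EU_sum u (fun e0 e1 e2 e3 => (if e1 = 0 ∧ e3 = 0 then (1 : ℂ) else -1) *
          T4 g e0 e1 e2 e3)]
    rfl
  rw [h3]
  have h4 : ∀ e0 e1 e2 e3, (if e1 = 0 ∧ e3 = 0 then (1 : ℂ) else -1) * T4 g e0 e1 e2 e3 =
      (if e1 = 0 then (if e3 = 0 then 2 * T4 g e0 0 e2 0 else 0) else 0) -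
        T4 g e0 e1 e2 e3 := by
    intro e0 e1 e2 e3
    by_cases h5 : e1 = 0
    · by_cases h6 : e3 = 0
      · subst h5 h6
        simp
        ring
      · simp [h5, h6]
    · simp [h5]
  simp only [h4, Finset.sum_sub_distrib]
  congr 1
  rw [Finset.mul_sum]
  refine Finset.sum_congr rfl fun e0 _ => ?_
  rw [Finset.sum_comm, Finset.mul_sum]
  refine Finset.sum_congr rfl fun e2 _ => ?_
  simp

end Pool.Agent.Helper87.GK
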