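import Pool.Agent.Helper23.GK.StG
import Pool.Agent.Helper90.MT.A10

/-!
# Project GK, module SSB (the singular series as an absolutely convergent series)
-/

set_option autoImplicit false

namespace Pool.Agent.Helper87.GK

open Finset ArithmeticFunction
open Pool.Agent.Helper23.GK

/-- `d ↦ d` on the divisors of `N` -/
private def FN (N : ℕ) : ArithmeticFunction ℤ :=
  ⟨fun d => if (d : ℤ) ∣ (N : ℤ) then (d : ℤ) else 0, by simp⟩

private theorem FN_apply (N d : ℕ) : FN N d = if (d : ℤ) ∣ (N : ℤ) then (d : ℤ) else 0 := rfl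

private theorem FN_mult (N : ℕ) : (FN N).IsMultiplicative := by
  refine ⟨by simp [FN_apply], fun {m n} h => ?_⟩
  simp only [FN_apply, Int.natCast_dvd_natCast]
  by_cases hm : m ∣ N
  · by_cases hn : n ∣ N
    · rw [if_pos hm, if_pos hn, if_pos (h.mul_dvd_of_dvd_of_dvd hm hn)]
      push_cast; ring
    · rw [if_neg hn, if_neg fun hc => hn (dvd_trans (dvd_mul_left _ _) hc), mul_zero]
  · rw [if_neg hm, if_neg fun hc => hm (dvd_trans (dvd_mul_right _ _) hc), zero_mul]

private theorem cR_eq (q N : ℕ) : cR q N = (FN N * moebius) q := by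
  rw [ArithmeticFunction.mul_apply, Nat.sum_divisorsAntidiagonal
    (f := fun d e => FN N d * moebius e)]
  unfold cR
  rw [Finset.sum_filter]
  refine Finset.sum_congr rfl fun d _ => ?_
  rw [FN_apply]
  split_ifs <;> simp

private theorem cR_mul (N : ℕ) {m n : ℕ} (h : Nat.Coprime m n) :
    cR (m * n) N = cR m N * cR n N := by
  simp only [cR_eq]
  exact ((FN_mult N).mul isMultiplicative_moebius).map_mul_of_coprime h

private theorem cR_one (N : ℕ) : cR 1 N = 1 := by
  rw [cR_eq]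
  exact ((FN_mult N).mul isMultiplicative_moebius).map_one

private theorem cR_prime (N : ℕ) {p : ℕ} (hp : p.Prime) :
    cR p N = (if p ∣ N then (p : ℤ) else 0) - 1 := by
  rw [cR_eq, ArithmeticFunction.mul_apply, Nat.sum_divisorsAntidiagonal
    (f := fun d e => FN N d * moebius e), hp.sum_divisors]
  simp only [FN_apply, Int.natCast_dvd_natCast, Nat.div_self hp.pos, Nat.div_one,
    isMultiplicative_moebius.map_one, moebius_apply_prime hp]
  simp
  ring

private theorem cR_abs (N q : ℕ) (hN : 1 ≤ N) : |cR q N| ≤ ∑ d ∈ N.divisors, (d : ℤ) := by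
  unfold cR
  refine (Finset.abs_sum_le_sum_abs _ _).trans ?_
  calc ∑ d ∈ q.divisors.filter (fun d : ℕ => (d : ℤ) ∣ (N : ℤ)), |(d : ℤ) * moebius (q / d)|
      ≤ ∑ d ∈ q.divisors.filter (fun d : ℕ => (d : ℤ) ∣ (N : ℤ)), (d : ℤ) := by
        refine Finset.sum_le_sum fun d _ => ?_
        rw [abs_mul, abs_of_nonneg (Int.natCast_nonneg d)]
        calc (d : ℤ) * |moebius (q / d)| ≤ (d : ℤ) * 1 :=
              mul_le_mul_of_nonneg_left abs_moebius_le_one (Int.natCast_nonneg d)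
          _ = d := mul_one _
    _ ≤ ∑ d ∈ N.divisors, (d : ℤ) := by
        refine Finset.sum_le_sum_of_subset_of_nonneg ?_ fun d _ _ => Int.natCast_nonneg d
        intro d hd
        rw [mem_filter, Int.natCast_dvd_natCast] at hd
        exact Nat.mem_divisors.2 ⟨hd.2, by omega⟩

private theorem pow4 (x : ℕ) : (x + 1) ^ 4 ≤ 41 * 2 ^ x := by
  rcases lt_or_ge x 6 with h | h
  · interval_cases x <;> norm_num
  · induction x, h using Nat.le_induction with
    | base => norm_num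
    | succ x hx ih =>
      have h1 : (x + 1 + 1) ^ 4 ≤ 2 * (x + 1) ^ 4 := by
        obtain ⟨y, rfl⟩ : ∃ y, x = y + 6 := ⟨x - 6, by omega⟩
        ring_nf
        nlinarith [Nat.zero_le (y ^ 4), Nat.zero_le (y ^ 3), Nat.zero_le (y ^ 2)]
      calc (x + 1 + 1) ^ 4 ≤ 2 * (x + 1) ^ 4 := h1
        _ ≤ 2 * (41 * 2 ^ x) := Nat.mul_le_mul_left _ ih
        _ = 41 * 2 ^ (x + 1) := by ring

/-- `φ(q)² ≥ q^{3/2} / 7` -/
private theorem tot_low (q : ℕ) (hq : q ≠ 0) :
    1 / ((Nat.totient q : ℝ) ^ 2) ≤ 7 * (1 / (q : ℝ) ^ (3 / 2 : ℝ)) := by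
  have hq0 : (0 : ℝ) < q := by positivity
  have hφ : (0 : ℝ) < Nat.totient q := by
    exact_mod_cast Nat.totient_pos.2 (Nat.pos_of_ne_zero hq)
  have h1 : q ≤ (q.primeFactors.card + 1) * q.totient :=
    Pool.Agent.Helper90.MT.A10.tot q
  have h2 : 2 ^ q.primeFactors.card ≤ q := Pool.Agent.Helper90.MT.A10.two_pow_le q hq
  have h3 : q ^ 4 ≤ 41 * q * q.totient ^ 4 := by
    calc q ^ 4 ≤ ((q.primeFactors.card + 1) * q.totient) ^ 4 := Nat.pow_le_pow_left h1 4
      _ = (q.primeFactors.card + 1) ^ 4 * q.totient ^ 4 := by ring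
      _ ≤ (41 * 2 ^ q.primeFactors.card) * q.totient ^ 4 :=
          Nat.mul_le_mul_right _ (pow4 _)
      _ ≤ (41 * q) * q.totient ^ 4 :=
          Nat.mul_le_mul_right _ (Nat.mul_le_mul_left _ h2)
  have h4 : (q : ℝ) ^ 3 ≤ 41 * (Nat.totient q : ℝ) ^ 4 := by
    have h5 : (q : ℝ) ^ 4 ≤ 41 * q * (Nat.totient q : ℝ) ^ 4 := by exact_mod_cast h3
    have h6 : (q : ℝ) * (q : ℝ) ^ 3 ≤ q * (41 * (Nat.totient q : ℝ) ^ 4) := by nlinarith
    exact le_of_mul_le_mul_left h6 hq0
  have h7 : (q : ℝ) ^ (3 / 2 : ℝ) ≤ 7 * (Nat.totient q : ℝ) ^ 2 := by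
    have h8 : ((q : ℝ) ^ (3 / 2 : ℝ)) ^ 2 = (q : ℝ) ^ 3 := by
      rw [← Real.rpow_natCast, ← Real.rpow_mul hq0.le]
      norm_num
    refine (sq_le_sq₀ (by positivity) (by positivity)).1 ?_
    rw [h8]
    nlinarith [sq_nonneg ((Nat.totient q : ℝ) ^ 2)]
  rw [mul_one_div, div_le_div_iff₀ (by positivity) (by positivity)]
  linarith

private noncomputable def ff (N q : ℕ) : ℝ :=
  (moebius q : ℝ) ^ 2 / (Nat.totient q : ℝ) ^ 2 * (cR q N : ℝ)

private theorem ff_sum (N : ℕ) (hN : 1 ≤ N) : Summable (fun q => ‖ff N q‖) := by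
  set S : ℝ := ∑ d ∈ N.divisors, (d : ℝ) with hS
  have hS0 : 0 ≤ S := Finset.sum_nonneg fun d _ => by positivity
  have hs : Summable (fun q : ℕ => S * (7 * (1 / (q : ℝ) ^ (3 / 2 : ℝ)))) :=
    ((Real.summable_one_div_nat_rpow.2 (by norm_num)).mul_left 7).mul_left S
  refine Summable.of_nonneg_of_le (fun q => norm_nonneg _) (fun q => ?_) hs
  rcases Nat.eq_zero_or_pos q with h0 | h0
  · subst h0
    simp [ff]
  have hc : |(cR q N : ℝ)| ≤ S := by
    have := cR_abs N q hN
    have h2 : ((|cR q N| : ℤ) : ℝ) ≤ ((∑ d ∈ N.divisors, (d : ℤ) : ℤ) : ℝ) := by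
      exact_mod_cast this
    rw [Int.cast_abs] at h2
    refine h2.trans (le_of_eq ?_)
    push_cast
    rfl
  have hm : (moebius q : ℝ) ^ 2 ≤ 1 := by
    have h1 : |(moebius q : ℤ)| ≤ 1 := abs_moebius_le_one
    have h2 : |(moebius q : ℝ)| ≤ 1 := by exact_mod_cast h1
    rw [← sq_abs]
    exact pow_le_one₀ (abs_nonneg _) h2
  have h1 : ‖ff N q‖ = (moebius q : ℝ) ^ 2 * (1 / (Nat.totient q : ℝ) ^ 2) *
      |(cR q N : ℝ)| := by
    unfold ff
    rw [Real.norm_eq_abs, abs_mul, abs_of_nonneg (by positivity)]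
    ring
  rw [h1]
  calc (moebius q : ℝ) ^ 2 * (1 / (Nat.totient q : ℝ) ^ 2) * |(cR q N : ℝ)|
      ≤ 1 * (7 * (1 / (q : ℝ) ^ (3 / 2 : ℝ))) * S := by
        refine mul_le_mul (mul_le_mul hm (tot_low q (by omega)) (by positivity) zero_le_one) hc
          (abs_nonneg _) (by positivity)
    _ = _ := by ring

private theorem ff_mul (N : ℕ) {m n : ℕ} (h : Nat.Coprime m n) :
    ff N (m * n) = ff N m * ff N n := by
  unfold ff
  rw [cR_mul N h, Nat.totient_mul h, isMultiplicative_moebius.map_mul_of_coprime h]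
  push_cast
  rw [mul_pow, mul_pow, ← div_mul_div_comm]
  ring

private theorem ff_one (N : ℕ) : ff N 1 = 1 := by
  simp [ff, cR_one]

private theorem ff_zero (N : ℕ) : ff N 0 = 0 := by
  simp [ff]

private theorem ff_pow (N : ℕ) {p : ℕ} (hp : p.Prime) {e : ℕ} (he : 2 ≤ e) :
    ff N (p ^ e) = 0 := by
  unfold ff
  rw [moebius_apply_prime_pow hp (by omega), if_neg (by omega)]
  simp

private theorem ff_prime (N : ℕ) {p : ℕ} (hp : p.Prime) :
    ff N p = (if p ∣ N then ((p : ℝ) - 1) else -1) / ((p : ℝ) - 1) ^ 2 := by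
  unfold ff
  rw [cR_prime N hp, Nat.totient_prime hp, moebius_apply_prime hp, Nat.cast_sub hp.one_le]
  split_ifs <;> push_cast <;> ring

/-- the local factors -/
private noncomputable def Gf (n : ℕ) : ℝ := 1 - 1 / ((n : ℝ) - 1) ^ 2

private noncomputable def Gp (n : ℕ) : ℝ := if 2 < n then Gf n else 1

private noncomputable def Hf (N n : ℕ) : ℝ :=
  if n ∣ N then (if 2 < n then ((n : ℝ) - 1) / ((n : ℝ) - 2) else 2) else 1

private theorem local_eq (N : ℕ) (hE : Even N) {p : ℕ} (hp : p.Prime) :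
    1 + ff N p = Gp p * Hf N p := by
  rw [ff_prime N hp]
  unfold Gp Hf Gf
  rcases lt_or_ge 2 p with h2 | h2
  · have h3 : (3 : ℝ) ≤ p := by exact_mod_cast h2
    have h4 : ((p : ℝ) - 1) ≠ 0 := by linarith
    have h5 : ((p : ℝ) - 2) ≠ 0 := by linarith
    rw [if_pos h2, if_pos h2]
    by_cases hd : p ∣ N
    · rw [if_pos hd, if_pos hd]
      field_simp
      ring
    · rw [if_neg hd, if_neg hd]
      ring
  · have h3 : p = 2 := le_antisymm h2 hp.two_le
    subst h3
    have hd : 2 ∣ N := hE.two_dvd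
    rw [if_pos hd, if_pos hd, if_neg (lt_irrefl 2), if_neg (lt_irrefl 2)]
    norm_num

private theorem tsum_pow (N : ℕ) {p : ℕ} (hp : p.Prime) :
    ∑' e : ℕ, ff N (p ^ e) = 1 + ff N p := by
  rw [tsum_eq_sum (s := range 2) fun e he => ff_pow N hp (by
    rw [mem_range] at he; omega)]
  rw [Finset.sum_range_succ, Finset.sum_range_one, pow_zero, pow_one, ff_one]

private theorem G_mult : Multipliable (fun n : ℕ => ({p | Nat.Prime p} : Set ℕ).mulIndicator Gp n) := by
  have h1 : (fun n : ℕ => ({p | Nat.Prime p} : Set ℕ).mulIndicator Gp n) = fun n : ℕ => 1 +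
      (if n.Prime ∧ 2 < n then -(1 / ((n : ℝ) - 1) ^ 2) else 0) := by
    funext n
    by_cases hp : n.Prime
    · rw [Set.mulIndicator_of_mem (show n ∈ {p | Nat.Prime p} from hp)]
      by_cases h2 : 2 < n
      · rw [if_pos ⟨hp, h2⟩]
        unfold Gp Gf
        rw [if_pos h2]
        ring
      · rw [if_neg fun h => h2 h.2]
        unfold Gp
        rw [if_neg h2]
        ring
    · rw [Set.mulIndicator_of_notMem (show n ∉ {p | Nat.Prime p} from hp), if_neg fun h => hp h.1]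
      ring
  rw [h1]
  refine multipliable_one_add_of_summable ?_
  have hs : Summable (fun n : ℕ => 4 * (1 / (n : ℝ) ^ 2)) :=
    (Real.summable_one_div_nat_pow.2 (by norm_num)).mul_left 4
  refine Summable.of_nonneg_of_le (fun n => norm_nonneg _) (fun n => ?_) hs
  split_ifs with h
  · have h3 : (3 : ℝ) ≤ n := by exact_mod_cast h.2
    rw [norm_neg, Real.norm_of_nonneg (by positivity)]
    have h4 : (0 : ℝ) < ((n : ℝ) - 1) ^ 2 := by
      have : (0 : ℝ) < (n : ℝ) - 1 := by linarith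
      positivity
    rw [mul_one_div, div_le_div_iff₀ h4 (by positivity)]
    nlinarith
  · simp

theorem hSSB : StSsb := by
  intro N hN hE
  have hsum := ff_sum N hN
  have hEul := EulerProduct.eulerProduct_hasProd (ff_one N) (fun {m n} h => ff_mul N h) hsum
    (ff_zero N)
  have h1 : HasProd (fun p : Nat.Primes => Gp p * Hf N p) (∑' n, ff N n) := by
    have e : (fun p : Nat.Primes => ∑' e : ℕ, ff N ((p : ℕ) ^ e)) =
        fun p : Nat.Primes => Gp p * Hf N p := by
      funext p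
      rw [tsum_pow N p.2, local_eq N hE p.2]
    rw [← e]
    exact hEul
  have h2 : HasProd (({p | Nat.Prime p} : Set ℕ).mulIndicator (fun n => Gp n * Hf N n))
      (∑' n, ff N n) := by
    rw [← hasProd_subtype_iff_mulIndicator]
    exact h1
  have h3 : HasProd (fun n : ℕ => ({p | Nat.Prime p} : Set ℕ).mulIndicator Gp n)
      (∏' n : ℕ, ({p | Nat.Prime p} : Set ℕ).mulIndicator Gp n) := G_mult.hasProd
  have h4 : HasProd (fun n : ℕ => ({p | Nat.Prime p} : Set ℕ).mulIndicator (Hf N) n)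
      (∏ n ∈ N.primeFactors, ({p | Nat.Prime p} : Set ℕ).mulIndicator (Hf N) n) := by
    refine hasProd_prod_of_ne_finset_one fun n hn => ?_
    by_cases hp : n.Prime
    · rw [Set.mulIndicator_of_mem (show n ∈ {p | Nat.Prime p} from hp)]
      have hd : ¬ n ∣ N := fun hd => hn (Nat.mem_primeFactors.2 ⟨hp, hd, by omega⟩)
      unfold Hf
      rw [if_neg hd]
    · rw [Set.mulIndicator_of_notMem (show n ∉ {p | Nat.Prime p} from hp)]
  have h5 := h3.mul h4
  have h6 : (fun n : ℕ => ({p | Nat.Prime p} : Set ℕ).mulIndicator Gp n *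
      ({p | Nat.Prime p} : Set ℕ).mulIndicator (Hf N) n) =
      ({p | Nat.Prime p} : Set ℕ).mulIndicator (fun n => Gp n * Hf N n) := by
    funext n
    rw [Set.mulIndicator_mul]
  rw [h6] at h5
  have h7 := h2.unique h5
  have h8 : ∏' n : ℕ, ({p | Nat.Prime p} : Set ℕ).mulIndicator Gp n =
      ∏' p : {p : ℕ // p.Prime ∧ 2 < p}, (1 - 1 / ((p : ℝ) - 1) ^ 2) := by
    have h9 : (∏' p : {p : ℕ // p.Prime ∧ 2 < p}, (1 - 1 / ((p : ℝ) - 1) ^ 2)) =
        ∏' n : ℕ, ({p | Nat.Prime p ∧ 2 < p} : Set ℕ).mulIndicator Gf n :=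
      tprod_subtype ({p | Nat.Prime p ∧ 2 < p} : Set ℕ) Gf
    rw [h9]
    refine tprod_congr fun n => ?_
    by_cases hp : n.Prime
    · rw [Set.mulIndicator_of_mem (show n ∈ {p | Nat.Prime p} from hp)]
      by_cases h2 : 2 < n
      · rw [Set.mulIndicator_of_mem (show n ∈ {p | Nat.Prime p ∧ 2 < p} from ⟨hp, h2⟩)]
        unfold Gp
        rw [if_pos h2]
      · rw [Set.mulIndicator_of_notMem (show n ∉ {p | Nat.Prime p ∧ 2 < p} from
          fun h => h2 h.2)]
        unfold Gp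
        rw [if_neg h2]
    · rw [Set.mulIndicator_of_notMem (show n ∉ {p | Nat.Prime p} from hp),
        Set.mulIndicator_of_notMem (show n ∉ {p | Nat.Prime p ∧ 2 < p} from fun h => hp h.1)]
  have h10 : ∏ n ∈ N.primeFactors, ({p | Nat.Prime p} : Set ℕ).mulIndicator (Hf N) n =
      2 * ∏ p ∈ N.primeFactors.filter (fun p => 2 < p), (((p : ℝ) - 1) / ((p : ℝ) - 2)) := by
    have h11 : ∀ n ∈ N.primeFactors, ({p | Nat.Prime p} : Set ℕ).mulIndicator (Hf N) n =
        if 2 < n then (((n : ℝ) - 1) / ((n : ℝ) - 2)) else 2 := by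
      intro n hn
      have hn' := Nat.mem_primeFactors.1 hn
      rw [Set.mulIndicator_of_mem (show n ∈ {p | Nat.Prime p} from hn'.1)]
      unfold Hf
      rw [if_pos hn'.2.1]
    rw [Finset.prod_congr rfl h11, Finset.prod_ite]
    have h12 : N.primeFactors.filter (fun p => ¬ 2 < p) = {2} := by
      ext p
      simp only [mem_filter, mem_singleton, Nat.mem_primeFactors]
      constructor
      · rintro ⟨⟨h, -, -⟩, h'⟩
        exact le_antisymm (not_lt.1 h') h.two_le
      · rintro rfl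
        exact ⟨⟨Nat.prime_two, hE.two_dvd, by omega⟩, lt_irrefl 2⟩
    rw [h12, Finset.prod_const, Finset.card_singleton, pow_one, mul_comm]
  have h13 : ∑' n, ff N n = SS N := by
    rw [h7, h8, h10]
    unfold SS
    ring
  rw [← h13]
  exact hsum.of_norm.hasSum

end Pool.Agent.Helper87.GK
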